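import Pool.Agent.Results.MP_25ed80_an.NoEmbedding

/-!
# Operators from `C([0, ω₁])` into `C(K)` are nowhere bounded below

Stronger form of `NoEmbedding` (MP_25ed80_an, Q1 and Q2).  For the scattered Valdivia compact space
`K` of the starting file every bounded operator `T : C([0, ω₁]) → C(K)` is arbitrarily small on
normalised nonnegative functions which live on countable intervals arbitrarily far out: for all
`ε > 0` and `x < ω₁` there are `y < ω₁` and `0 ≤ h` with `‖h‖ = 1`, `h = 0` outside `(x, y]` and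
`‖T h‖ ≤ ε`.
-/

set_option autoImplicit false

namespace Pool.Agent.Results.MP_25ed80_an.NowhereBoundedBelow

open Set Filter Topology NoEmbedding
open scoped Ordinal

theorem add_lt_omega {x y : Ordinal.{0}} (hx : x < ω_ 1) (hy : y < ω_ 1) : x + y < ω_ 1 := by
  rw [← Cardinal.ord_aleph, Cardinal.lt_ord] at *
  rw [Ordinal.card_add]
  exact Cardinal.add_lt_of_lt (Cardinal.aleph0_le_aleph 1) hx hy

theorem exists_shift {x : Ordinal.{0}} (hx : x < ω_ 1) :
    ∃ g : W1 → W1, StrictMono g ∧ ∀ a, x ≤ od (g a) := by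
  choose g hg using fun a : W1 => exists_od (add_lt_omega hx (od_lt a))
  refine ⟨g, fun a b hab => ?_, fun a => ?_⟩
  · rw [← od_lt_od, hg, hg]
    exact (add_lt_add_iff_left x).2 (od_lt_od.2 hab)
  · rw [hg]
    exact le_self_add

variable {R : RhoSys W1}

/-- An operator is small on some normalised function which lives far out. -/
theorem small (T : C(Seg, ℝ) →L[ℝ] C(KK R, ℝ)) {ε : ℝ} (hε : 0 < ε) {x : Ordinal.{0}}
    (hx : x < ω_ 1) : ∃ y < (ω_ 1 : Ordinal.{0}), ∃ h : C(Seg, ℝ), ‖h‖ = 1 ∧ (∀ l, 0 ≤ h l) ∧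
      (∀ l : Seg, ((l : Ordinal.{0}) ≤ x ∨ y < (l : Ordinal.{0})) → h l = 0) ∧ ‖T h‖ ≤ ε := by
  obtain ⟨g, hg, hgx⟩ := exists_shift hx
  set C := ‖T‖ with hC
  set f : W1 → C(KK R, ℝ) := fun a => T (chi (g a)) with hf
  have H0 : ∀ a s, |f a s| ≤ C := by
    intro a s
    rw [← Real.norm_eq_abs]
    calc ‖T (chi (g a)) s‖ ≤ ‖T (chi (g a))‖ := (T (chi (g a))).norm_coe_le_norm s
      _ ≤ ‖T‖ * ‖chi (g a)‖ := T.le_opNorm _
      _ ≤ ‖T‖ * 1 := mul_le_mul_of_nonneg_left (norm_chi_le _) T.opNorm_nonneg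
      _ = C := mul_one _
  have H1 : PairVar f C := fun a ha N s =>
    pairVar_of_map T (fun i => g (a i)) (hg.comp ha) N s
  have key : ¬ ∀ a : ℕ → W1, StrictMono a → ∀ N : ℕ, ∃ s : KK R,
      ε * N ≤ |∑ i ∈ Finset.range N, f (a i) s - ∑ i ∈ Finset.range N, f (a (N + i)) s| := by
    intro H2
    obtain ⟨Φ, δ₀, d, hΦ, ha, hb, hd⟩ := exists_phi W1_Iio W1_unc H0 H1
    rcases lt_trichotomy d 0 with h | h | h
    · exact caseA W1_Iio W1_unc H1 ha hb hd (σ := -1) (by simp) (by linarith)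
    · subst h
      exact caseB W1_Iio W1_unc H0 H1 (c := ε) hε H2 hΦ ha hb hd
    · exact caseA W1_Iio W1_unc H1 ha hb hd (σ := 1) (by simp) (by linarith)
  push Not at key
  obtain ⟨a, ha, N, hN⟩ := key
  have hNpos : 0 < N := by
    rcases Nat.eq_zero_or_pos N with h0 | h0
    · exfalso
      have h1 := hN (xtop R)
      rw [h0] at h1
      simp at h1
    · exact h0
  have hN0 : (0 : ℝ) < N := by exact_mod_cast hNpos
  let h : C(Seg, ℝ) := ∑ i ∈ Finset.range N, chi (g (a i)) -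
    ∑ i ∈ Finset.range N, chi (g (a (N + i)))
  have hval : ∀ l, h l = ∑ i ∈ Finset.range N, (chi (g (a i)) l - chi (g (a (N + i))) l) := by
    intro l
    simp only [h, ContinuousMap.coe_sub, Pi.sub_apply, ContinuousMap.coe_sum, Finset.sum_apply,
      Finset.sum_sub_distrib]
  have hterm0 : ∀ l i, 0 ≤ chi (g (a i)) l - chi (g (a (N + i))) l := fun l i =>
    sub_nonneg.2 (chi_anti (hg.monotone (ha.monotone (by omega))) l)
  have hterm1 : ∀ l i, chi (g (a i)) l - chi (g (a (N + i))) l ≤ 1 := fun l i => by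
    have h1 := chi_le_one (g (a i)) l
    have h2 := chi_nonneg (g (a (N + i))) l
    linarith
  have hnn : ∀ l, 0 ≤ h l := fun l => by
    rw [hval]
    exact Finset.sum_nonneg fun i _ => hterm0 l i
  have hle : ∀ l, h l ≤ N := fun l => by
    rw [hval]
    calc ∑ i ∈ Finset.range N, (chi (g (a i)) l - chi (g (a (N + i))) l)
        ≤ ∑ _i ∈ Finset.range N, (1 : ℝ) := Finset.sum_le_sum fun i _ => hterm1 l i
      _ = N := by simp
  have hat : ∃ l, h l = N := by
    refine ⟨⟨od (g (a N)), (od_lt _).le⟩, ?_⟩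
    rw [hval, Finset.sum_congr rfl (g := fun _ => (1 : ℝ))]
    · simp
    · intro i hi
      rw [chi_of_lt (od_lt_od.mpr (hg (ha (Finset.mem_range.mp hi)))), chi_of_le, sub_zero]
      show od (g (a N)) ≤ od (g (a (N + i)))
      by_contra hcon2
      push Not at hcon2
      exact absurd (od_lt_od.mp hcon2) (not_lt.mpr (hg.monotone (ha.monotone (by omega))))
  have hT : ∀ s, |T h s| ≤ ε * N := by
    intro s
    have e1 : T h s = ∑ i ∈ Finset.range N, f (a i) s - ∑ i ∈ Finset.range N, f (a (N + i)) s := by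
      simp only [h, hf, map_sum, map_sub, ContinuousMap.coe_sum, Finset.sum_apply,
        ContinuousMap.coe_sub, Pi.sub_apply]
    rw [e1]
    exact (hN s).le
  refine ⟨od (g (a (2 * N))), od_lt _, (N : ℝ)⁻¹ • h, ?_, ?_, ?_, ?_⟩
  · apply le_antisymm
    · rw [ContinuousMap.norm_le _ zero_le_one]
      intro l
      rw [ContinuousMap.coe_smul, Pi.smul_apply, smul_eq_mul, Real.norm_eq_abs, abs_mul,
        abs_of_pos (inv_pos.2 hN0), abs_of_nonneg (hnn l), inv_mul_le_iff₀ hN0, mul_one]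
      exact hle l
    · obtain ⟨l, hl⟩ := hat
      calc (1 : ℝ) = ((N : ℝ)⁻¹ • h) l := by
            rw [ContinuousMap.coe_smul, Pi.smul_apply, smul_eq_mul, hl, inv_mul_cancel₀ hN0.ne']
        _ ≤ ‖((N : ℝ)⁻¹ • h) l‖ := Real.le_norm_self _
        _ ≤ _ := ContinuousMap.norm_coe_le_norm _ l
  · intro l
    rw [ContinuousMap.coe_smul, Pi.smul_apply, smul_eq_mul]
    exact mul_nonneg (inv_pos.2 hN0).le (hnn l)
  · intro l hl
    rw [ContinuousMap.coe_smul, Pi.smul_apply, smul_eq_mul, hval]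
    rw [Finset.sum_eq_zero, mul_zero]
    intro i hi
    rcases hl with hl | hl
    · rw [chi_of_le (hl.trans (hgx _)), chi_of_le (hl.trans (hgx _)), sub_zero]
    · have h1 : ∀ j ≤ 2 * N, od (g (a j)) < (l : Ordinal.{0}) := by
        intro j hj
        refine lt_of_le_of_lt ?_ hl
        by_contra hcon
        push Not at hcon
        exact absurd (od_lt_od.mp hcon) (not_lt.mpr (hg.monotone (ha.monotone hj)))
      have hi' := Finset.mem_range.mp hi
      rw [chi_of_lt (h1 _ (by omega)), chi_of_lt (h1 _ (by omega)), sub_self]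
  · rw [map_smul, norm_smul, Real.norm_eq_abs, abs_of_pos (inv_pos.2 hN0), inv_mul_le_iff₀ hN0,
      mul_comm (N : ℝ) ε, ContinuousMap.norm_le _ (by positivity)]
    intro s
    rw [Real.norm_eq_abs]
    exact hT s

/-- `T` is nowhere bounded below: for all `ε > 0` and `x < ω₁` there are `y < ω₁` and a nonnegative
function `h` of norm one on `[0, ω₁]` which vanishes outside `(x, y]`, such that `‖T h‖ ≤ ε`. -/
def NowhereBddBelow {K : Type} [TopologicalSpace K] [CompactSpace K]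
    (T : C(Seg, ℝ) →L[ℝ] C(K, ℝ)) : Prop :=
  ∀ ε : ℝ, 0 < ε → ∀ x < (ω_ 1 : Ordinal.{0}), ∃ y < (ω_ 1 : Ordinal.{0}), ∃ h : C(Seg, ℝ),
    ‖h‖ = 1 ∧ (∀ l, 0 ≤ h l) ∧
    (∀ l : Seg, ((l : Ordinal.{0}) ≤ x ∨ y < (l : Ordinal.{0})) → h l = 0) ∧ ‖T h‖ ≤ ε

/-- **Main theorem.** There is a scattered Valdivia compact space `K` containing a copy of
`[0, ω₁]` such that every bounded linear operator from `C([0, ω₁])` to `C(K)` is nowhere bounded
below: it is arbitrarily small on nonnegative norm one functions supported by intervals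
`(x, y]`, `y < ω₁`, with `x` as large as desired.  In particular `C([0, ω₁])` does not embed into
`C(K)` and no copy of `[0, ω₁]` in `K` admits a linear extension operator. -/
theorem result : ∃ (K : Type) (_ : TopologicalSpace K) (_ : CompactSpace K) (_ : T2Space K),
    IsScattered K ∧ IsValdivia K ∧ (∃ L : Set K, Nonempty (L ≃ₜ Seg)) ∧
    (∀ T : C(Seg, ℝ) →L[ℝ] C(K, ℝ), NowhereBddBelow T) ∧
    ¬ EmbedsInto C(Seg, ℝ) C(K, ℝ) ∧
    ∀ L : Set K, Nonempty (L ≃ₜ Seg) →
      ¬ ∃ E : C(L, ℝ) →L[ℝ] C(K, ℝ), ∀ (f : C(L, ℝ)) (x : L), E f x = f x := by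
  obtain ⟨R⟩ := exists_rhoSys
  refine ⟨KK R, inferInstance, inferInstance, inferInstance, ?_, valdivia, ?_, ?_,
    not_embedsInto, ?_⟩
  · intro S hS
    obtain ⟨x, hx, U, hU, h⟩ := scattered R S hS
    exact ⟨x, hx, U, hU, h⟩
  · exact ⟨range (segEmb R), ⟨segEmb_embedding.toHomeomorph.symm⟩⟩
  · exact fun T ε hε x hx => small T hε hx
  · rintro L ⟨φ⟩ ⟨E, hE⟩
    exact no_extension L φ E hE

end Pool.Agent.Results.MP_25ed80_an.NowhereBoundedBelow
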